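import Mathlib

set_option autoImplicit false

namespace Pool.Agent.H.MP_abf7f7_an

lemma exists_switch (P : ℕ → Prop) (h0 : P 0) : ∀ J : ℕ, ¬ P J → ∃ j < J, P j ∧ ¬ P (j + 1) := by
  intro J
  induction J with
  | zero => intro h; exact absurd h0 h
  | succ k ih =>
    intro h
    by_cases hk : P k
    · exact ⟨k, Nat.lt_succ_self k, hk, h⟩
    · obtain ⟨j, hj, hj'⟩ := ih hk
      exact ⟨j, Nat.lt_succ_of_lt hj, hj'⟩

/-- If `1 < Y^q / X^p < 1 + δ`, every large `n` has a number `X^a Y^b` in `(n / (1 + δ), n]`. -/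
lemma exists_prod_near {X Y p q : ℕ} {δ : ℝ} (hX : 2 ≤ X)
    (h1 : (X : ℝ) ^ p < (Y : ℝ) ^ q) (h2 : (Y : ℝ) ^ q < (1 + δ) * (X : ℝ) ^ p) :
    ∃ n₀ : ℕ, ∀ n ≥ n₀, ∃ a b : ℕ, (n : ℝ) < (1 + δ) * ((X ^ a * Y ^ b : ℕ) : ℝ) ∧
      X ^ a * Y ^ b ≤ n := by
  have hX0 : (0 : ℝ) < X := by
    have : 0 < X := by omega
    exact_mod_cast this
  have hXp : (0 : ℝ) < (X : ℝ) ^ p := pow_pos hX0 p
  set ρ : ℝ := (Y : ℝ) ^ q / (X : ℝ) ^ p with hρ
  have hρ1 : 1 < ρ := by rw [hρ, lt_div_iff₀ hXp, one_mul]; exact h1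
  have hρY : ρ * (X : ℝ) ^ p = (Y : ℝ) ^ q := by rw [hρ]; field_simp
  obtain ⟨J, hJ⟩ := pow_unbounded_of_one_lt (X : ℝ) hρ1
  refine ⟨X ^ (p * J), fun n hn => ?_⟩
  have hn0 : n ≠ 0 := by
    have : 0 < X ^ (p * J) := Nat.pow_pos (by omega)
    omega
  set a := Nat.log X n with ha
  have ha1 : X ^ a ≤ n := Nat.pow_log_le_self X hn0
  have ha2 : n < X ^ (a + 1) := Nat.lt_pow_succ_log_self (by omega) n
  have ha3 : p * J ≤ a := by
    rw [ha]
    exact Nat.le_log_of_pow_le (by omega) hn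
  let v : ℕ → ℕ := fun j => X ^ (a - p * j) * Y ^ (q * j)
  have hv : ∀ j, j ≤ J → ((v j : ℕ) : ℝ) = (X : ℝ) ^ a * ρ ^ j := by
    intro j hj
    have h3 : p * j ≤ a := (Nat.mul_le_mul_left p hj).trans ha3
    have h4 : (X : ℝ) ^ a = (X : ℝ) ^ (a - p * j) * ((X : ℝ) ^ p) ^ j := by
      rw [← pow_mul, ← pow_add]
      congr 1
      omega
    simp only [v]
    push_cast
    rw [h4, pow_mul, ← hρY, mul_pow]
    ring
  have hJv : ¬ v J ≤ n := by
    intro h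
    have h3 : ((v J : ℕ) : ℝ) ≤ n := by exact_mod_cast h
    rw [hv J le_rfl] at h3
    have h4 : (n : ℝ) < (X : ℝ) ^ (a + 1) := by exact_mod_cast ha2
    have h5 : (X : ℝ) ^ (a + 1) ≤ (X : ℝ) ^ a * ρ ^ J := by
      rw [pow_succ]
      exact mul_le_mul_of_nonneg_left hJ.le (pow_pos hX0 a).le
    linarith
  have h0v : v 0 ≤ n := by simpa [v] using ha1
  obtain ⟨j, hj, hj1, hj2⟩ := exists_switch (fun j => v j ≤ n) h0v J hJv
  refine ⟨a - p * j, q * j, ?_, hj1⟩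
  have h3 : (n : ℝ) < ((v (j + 1) : ℕ) : ℝ) := by
    have : n < v (j + 1) := not_le.mp hj2
    exact_mod_cast this
  have h4 : ((v (j + 1) : ℕ) : ℝ) = ρ * ((v j : ℕ) : ℝ) := by
    rw [hv (j + 1) hj, hv j hj.le, pow_succ]
    ring
  have h5 : ρ ≤ 1 + δ := by
    rw [hρ, div_le_iff₀ hXp]
    exact h2.le
  have h6 : ρ * ((v j : ℕ) : ℝ) ≤ (1 + δ) * ((v j : ℕ) : ℝ) :=
    mul_le_mul_of_nonneg_right h5 (Nat.cast_nonneg _)
  change (n : ℝ) < (1 + δ) * ((v j : ℕ) : ℝ)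
  linarith

lemma irrational_log_div : Irrational (Real.log 12 / Real.log 2) := by
  rw [irrational_iff_ne_rational]
  intro a b hb h
  have hl2 : 0 < Real.log 2 := Real.log_pos (by norm_num)
  have hl12 : 0 < Real.log 12 := Real.log_pos (by norm_num)
  have hbR : (b : ℝ) ≠ 0 := by exact_mod_cast hb
  have h1 : (b : ℝ) * Real.log 12 = a * Real.log 2 := by
    field_simp at h
    linarith
  have h2 : (b.natAbs : ℝ) * Real.log 12 = (a.natAbs : ℝ) * Real.log 2 := by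
    have h3 := congrArg abs h1
    rw [abs_mul, abs_mul, abs_of_pos hl12, abs_of_pos hl2] at h3
    rw [Nat.cast_natAbs, Nat.cast_natAbs]
    push_cast
    exact h3
  rw [← Real.log_pow, ← Real.log_pow] at h2
  have h3 : (12 : ℝ) ^ b.natAbs = 2 ^ a.natAbs :=
    Real.log_injOn_pos (Set.mem_Ioi.mpr (by positivity)) (Set.mem_Ioi.mpr (by positivity)) h2
  have h4 : 12 ^ b.natAbs = 2 ^ a.natAbs := by exact_mod_cast h3
  have hb' : b.natAbs ≠ 0 := Int.natAbs_ne_zero.mpr hb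
  have h5 : 3 ∣ 2 ^ a.natAbs := by
    rw [← h4]
    exact dvd_pow (by norm_num) hb'
  have h6 : 3 ∣ 2 := Nat.prime_three.dvd_of_dvd_pow h5
  omega

/-- Densely many products `2^a 12^b` on the logarithmic scale. -/
lemma exists_pow_mul_pow {ε : ℝ} (hε : 0 < ε) : ∃ n₀ : ℕ, ∀ n ≥ n₀, ∃ a b : ℕ,
    (1 - ε) * n ≤ ((2 ^ a * 12 ^ b : ℕ) : ℝ) ∧ 2 ^ a * 12 ^ b ≤ n := by
  have hl2 : 0 < Real.log 2 := Real.log_pos (by norm_num)
  have hl12 : 0 < Real.log 12 := Real.log_pos (by norm_num)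
  have hl : Real.log 2 ≤ Real.log 12 := Real.log_le_log (by norm_num) (by norm_num)
  set δ : ℝ := min ε 1 with hδ
  have hδ0 : 0 < δ := lt_min hε one_pos
  have hδ1 : δ ≤ 1 := min_le_right _ _
  have hδε : δ ≤ ε := min_le_left _ _
  have hld : 0 < Real.log (1 + δ) := Real.log_pos (by linarith)
  have hld2 : Real.log (1 + δ) ≤ Real.log 2 := Real.log_le_log (by linarith) (by linarith)
  obtain ⟨x, hx, hx0, hx1⟩ :=
    (dense_addSubgroupClosure_pair_iff.mpr irrational_log_div).exists_between hld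
  obtain ⟨m, k, hmk⟩ := AddSubgroup.mem_closure_pair.mp hx
  simp only [zsmul_eq_mul] at hmk
  -- reduction to `exists_prod_near`
  have key : (∃ n₀ : ℕ, ∀ n ≥ n₀, ∃ a b : ℕ,
      (n : ℝ) < (1 + δ) * ((2 ^ a * 12 ^ b : ℕ) : ℝ) ∧ 2 ^ a * 12 ^ b ≤ n) := by
    have hexp : ∀ p q : ℕ, ∀ u w : ℝ, 0 < u → 0 < w →
        (0 < (q : ℝ) * Real.log w - p * Real.log u) →
        ((q : ℝ) * Real.log w - p * Real.log u < Real.log (1 + δ)) →
        u ^ p < w ^ q ∧ w ^ q < (1 + δ) * u ^ p := by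
      intro p q u w hu hw h1 h2
      rw [← Real.log_pow, ← Real.log_pow] at h1 h2
      have hup : 0 < u ^ p := pow_pos hu p
      have hwq : 0 < w ^ q := pow_pos hw q
      constructor
      · exact (Real.log_lt_log_iff hup hwq).mp (by linarith)
      · refine (Real.log_lt_log_iff hwq (by positivity)).mp ?_
        rw [Real.log_mul (by linarith) hup.ne']
        linarith
    rcases le_or_gt m 0 with hm | hm
    · have hk : 0 < k := by
        by_contra hk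
        have hk' : k ≤ 0 := not_lt.mp hk
        have h1 : (m : ℝ) ≤ 0 := by exact_mod_cast hm
        have h2 : (k : ℝ) ≤ 0 := by exact_mod_cast hk'
        nlinarith
      obtain ⟨p, rfl⟩ : ∃ p : ℕ, m = -(p : ℤ) := ⟨m.natAbs, by omega⟩
      obtain ⟨q, rfl⟩ : ∃ q : ℕ, k = (q : ℤ) := ⟨k.natAbs, by omega⟩
      push_cast at hmk
      obtain ⟨h1, h2⟩ := hexp p q 12 2 (by norm_num) (by norm_num) (by linarith) (by linarith)
      obtain ⟨n₀, hn₀⟩ := exists_prod_near (X := 12) (Y := 2) (p := p) (q := q) (δ := δ)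
        (by norm_num) (by exact_mod_cast h1) (by exact_mod_cast h2)
      refine ⟨n₀, fun n hn => ?_⟩
      obtain ⟨a, b, h3, h4⟩ := hn₀ n hn
      refine ⟨b, a, ?_, ?_⟩
      · rw [mul_comm (2 ^ b) (12 ^ a)]; exact h3
      · rw [mul_comm (2 ^ b) (12 ^ a)]; exact h4
    · have hk : k ≤ 0 := by
        by_contra hk
        have hk' : 0 < k := not_le.mp hk
        have h1 : (1 : ℝ) ≤ m := by exact_mod_cast hm
        have h2 : (0 : ℝ) < k := by exact_mod_cast hk'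
        nlinarith
      obtain ⟨p, rfl⟩ : ∃ p : ℕ, k = -(p : ℤ) := ⟨k.natAbs, by omega⟩
      obtain ⟨q, rfl⟩ : ∃ q : ℕ, m = (q : ℤ) := ⟨m.natAbs, by omega⟩
      push_cast at hmk
      obtain ⟨h1, h2⟩ := hexp p q 2 12 (by norm_num) (by norm_num) (by linarith) (by linarith)
      exact exists_prod_near (X := 2) (Y := 12) (p := p) (q := q) (δ := δ)
        (by norm_num) (by exact_mod_cast h1) (by exact_mod_cast h2)
  obtain ⟨n₀, hn₀⟩ := key
  refine ⟨n₀, fun n hn => ?_⟩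
  obtain ⟨a, b, h1, h2⟩ := hn₀ n hn
  refine ⟨a, b, ?_, h2⟩
  have hn0 : (0 : ℝ) ≤ n := Nat.cast_nonneg n
  have hv0 : (0 : ℝ) ≤ ((2 ^ a * 12 ^ b : ℕ) : ℝ) := Nat.cast_nonneg _
  set v : ℝ := ((2 ^ a * 12 ^ b : ℕ) : ℝ)
  nlinarith [mul_nonneg (sub_nonneg.mpr hδ1) (sub_nonneg.mpr h1.le),
    mul_nonneg (mul_nonneg hδ0.le hδ0.le) hv0, mul_nonneg (sub_nonneg.mpr hδε) hn0]

end Pool.Agent.H.MP_abf7f7_an
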