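import Pool.Agent.H.MP_abf7f7_an.Constr

set_option autoImplicit false

namespace Pool.Agent.H.MP_abf7f7_an

open Matrix

/-- `m ≥ 1` is the order of a Hadamard matrix. -/
def HadOrder (m : ℕ) : Prop := 1 ≤ m ∧ ∃ H : Matrix (Fin m) (Fin m) ℝ, HadamardMat H

/-- Hadamard matrices from integer arrays. -/
lemma hadOrder_of_int {m : ℕ} (hm : 1 ≤ m) (h : Fin m → Fin m → ℤ)
    (h1 : ∀ i j, h i j = 1 ∨ h i j = -1)
    (h2 : ∀ i j, ∑ k, h i k * h j k = if i = j then (m : ℤ) else 0) : HadOrder m := by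
  refine ⟨hm, Matrix.of fun i j => (h i j : ℝ), fun i j => ?_, ?_⟩
  · rcases h1 i j with h' | h'
    · left; simp [h']
    · right; simp [h']
  · ext i j
    rw [Matrix.mul_apply, Matrix.smul_apply, Matrix.one_apply]
    simp only [Matrix.of_apply, Matrix.transpose_apply]
    have h3 : (∑ k, (h i k : ℝ) * (h j k : ℝ)) = ((∑ k, h i k * h j k : ℤ) : ℝ) := by
      push_cast
      rfl
    rw [h3, h2 i j]
    by_cases hij : i = j
    · simp [hij]
    · simp [hij]

lemma hadOrder_one : HadOrder 1 :=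
  hadOrder_of_int le_rfl (fun _ _ => 1) (by decide) (by decide)

lemma hadOrder_two : HadOrder 2 :=
  hadOrder_of_int (by norm_num) (fun i j => if i = 1 ∧ j = 1 then -1 else 1)
    (by decide) (by decide)

/-- The Paley matrix of the squares modulo 11. -/
def paley12 (i j : Fin 12) : ℤ :=
  if i.val = 0 ∨ j.val = 0 then 1
  else if ((i.val + 11 - j.val) % 11) ∈ ([1, 3, 4, 5, 9] : List ℕ) then 1 else -1

lemma hadOrder_twelve : HadOrder 12 :=
  hadOrder_of_int (by norm_num) paley12 (by decide +kernel) (by decide +kernel)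

lemma hadOrder_mul {a b : ℕ} (ha : HadOrder a) (hb : HadOrder b) : HadOrder (a * b) := by
  obtain ⟨ha1, A, hA, hAA⟩ := ha
  obtain ⟨hb1, B, hB, hBB⟩ := hb
  refine ⟨Nat.mul_pos ha1 hb1, Matrix.reindex finProdFinEquiv finProdFinEquiv
    (Matrix.kroneckerMap (· * ·) A B), fun i j => ?_, ?_⟩
  · simp only [Matrix.reindex_apply, Matrix.submatrix_apply, Matrix.kroneckerMap_apply]
    rcases hA (finProdFinEquiv.symm i).1 (finProdFinEquiv.symm j).1 with h1 | h1 <;>
      rcases hB (finProdFinEquiv.symm i).2 (finProdFinEquiv.symm j).2 with h2 | h2 <;>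
      rw [h1, h2] <;> norm_num
  · rw [Matrix.transpose_reindex, Matrix.reindex_apply, Matrix.reindex_apply,
      Matrix.submatrix_mul_equiv]
    have h1 : Matrix.kroneckerMap (· * ·) A B * (Matrix.kroneckerMap (· * ·) A B)ᵀ
        = ((a : ℝ) * b) • (1 : Matrix (Fin a × Fin b) (Fin a × Fin b) ℝ) := by
      have h2 : (Matrix.kroneckerMap (· * ·) A B)ᵀ = Matrix.kroneckerMap (· * ·) Aᵀ Bᵀ := rfl
      rw [h2]
      have h3 := Matrix.mul_kronecker_mul A Aᵀ B Bᵀ
      change Matrix.kroneckerMap (· * ·) (A * Aᵀ) (B * Bᵀ) = _ at h3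
      rw [← h3, hAA, hBB]
      ext i j
      simp only [Matrix.kroneckerMap_apply, Matrix.smul_apply, Matrix.one_apply, smul_eq_mul]
      by_cases h4 : i.1 = j.1 <;> by_cases h5 : i.2 = j.2 <;> simp [h4, h5, Prod.ext_iff]
    rw [h1]
    ext i j
    simp only [Matrix.submatrix_apply, Matrix.smul_apply, Matrix.one_apply, smul_eq_mul,
      EmbeddingLike.apply_eq_iff_eq]
    push_cast
    rfl

lemma hadOrder_pow (a b : ℕ) : HadOrder (2 ^ a * 12 ^ b) := by
  refine hadOrder_mul ?_ ?_
  · induction a with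
    | zero => simpa using hadOrder_one
    | succ k ih =>
      rw [pow_succ]
      exact hadOrder_mul ih hadOrder_two
  · induction b with
    | zero => simpa using hadOrder_one
    | succ k ih =>
      rw [pow_succ]
      exact hadOrder_mul ih hadOrder_twelve

end Pool.Agent.H.MP_abf7f7_an
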