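import Pool.Agent.H.MP_abf7f7_an.Constr

set_option autoImplicit false

namespace Pool.Agent.H.MP_abf7f7_an

open Matrix

/-- An orthonormal family of `rank N` vectors in which the columns of `N` are expanded. -/
lemma exists_orthonormal_cols {n : ℕ} (N : Matrix (Fin n) (Fin n) ℝ) :
    ∃ b : Fin N.rank → Fin n → ℝ, (∀ k, b k ⬝ᵥ b k = 1) ∧
      ∀ j i, N i j = ∑ k, (∑ l, b k l * N l j) * b k i := by
  let e : EuclideanSpace ℝ (Fin n) ≃ₗ[ℝ] (Fin n → ℝ) := WithLp.linearEquiv 2 ℝ (Fin n → ℝ)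
  let W : Submodule ℝ (Fin n → ℝ) := Submodule.span ℝ (Set.range N.col)
  let W' : Submodule ℝ (EuclideanSpace ℝ (Fin n)) := W.map (e.symm : (Fin n → ℝ) →ₗ[ℝ] _)
  have hW : Module.finrank ℝ W' = N.rank := by
    rw [Matrix.rank_eq_finrank_span_cols]
    exact LinearEquiv.finrank_map_eq e.symm W
  let b := (stdOrthonormalBasis ℝ W').reindex (finCongr hW)
  refine ⟨fun k i => (b k : EuclideanSpace ℝ (Fin n)) i, fun k => ?_, fun j i => ?_⟩
  · have h1 : ‖(b k : EuclideanSpace ℝ (Fin n))‖ = 1 := by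
      have h := b.orthonormal.1 k
      exact h
    have h2 := EuclideanSpace.norm_sq_eq (b k : EuclideanSpace ℝ (Fin n))
    rw [h1] at h2
    simp only [Real.norm_eq_abs, sq_abs] at h2
    simp only [dotProduct]
    rw [one_pow] at h2
    rw [h2]
    exact Finset.sum_congr rfl fun i _ => by ring
  · have hmem : e.symm (N.col j) ∈ W' :=
      Submodule.mem_map_of_mem (Submodule.subset_span ⟨j, rfl⟩)
    have h1 := b.sum_repr' ⟨e.symm (N.col j), hmem⟩
    have h2 := congrArg (fun w : W' => (w : EuclideanSpace ℝ (Fin n)) i) h1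
    simp only [Submodule.coe_inner, AddSubmonoidClass.coe_finsetSum, Submodule.coe_smul] at h2
    have h3 : (e.symm (N.col j)).ofLp i = N i j := rfl
    rw [h3] at h2
    rw [← h2, WithLp.ofLp_sum, Finset.sum_apply]
    refine Finset.sum_congr rfl fun k _ => ?_
    have h4 : inner ℝ (b k : EuclideanSpace ℝ (Fin n)) (e.symm (N.col j))
        = ∑ l, (b k : EuclideanSpace ℝ (Fin n)) l * N l j := by
      rw [PiLp.inner_apply]
      refine Finset.sum_congr rfl fun l _ => ?_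
      have h5 : (e.symm (N.col j)).ofLp l = N l j := rfl
      rw [h5, RCLike.inner_apply, mul_comm]
      simp
    rw [h4]
    rfl

/-- The sum of the squares of the coordinates in that family. -/
lemma sum_sq_coords {n r : ℕ} {N : Matrix (Fin n) (Fin n) ℝ} {b : Fin r → Fin n → ℝ}
    (hb : ∀ j i, N i j = ∑ k, (∑ l, b k l * N l j) * b k i) (j : Fin n) :
    ∑ k, (∑ l, b k l * N l j) ^ 2 = ∑ i, N i j ^ 2 := by
  have h1 : ∀ i, N i j ^ 2 = ∑ k, (∑ l, b k l * N l j) * (b k i * N i j) := by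
    intro i
    rw [sq]
    nth_rewrite 1 [hb j i]
    rw [Finset.sum_mul]
    exact Finset.sum_congr rfl fun k _ => by ring
  simp only [h1]
  rw [Finset.sum_comm]
  refine Finset.sum_congr rfl fun k _ => ?_
  rw [← Finset.mul_sum, sq]

/-- The key estimate, with the rank. -/
lemma bilin_le_rank {n : ℕ} {M A : Matrix (Fin n) (Fin n) ℝ} (hM : IsSign M) (hA : opNorm A ≤ 1)
    (x y : Fin n → ℝ) :
    (y ⬝ᵥ ((M ⊙ A) *ᵥ x)) ^ 2 ≤ (M.rank : ℝ) * (x ⬝ᵥ x) * (y ⬝ᵥ y) := by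
  let N : Matrix (Fin n) (Fin n) ℝ := Matrix.diagonal y * M * Matrix.diagonal x
  have hN : ∀ i j, N i j = y i * M i j * x j := by
    intro i j
    simp only [N]
    rw [Matrix.mul_diagonal, Matrix.diagonal_mul]
  have hrank : N.rank ≤ M.rank :=
    (Matrix.rank_mul_le_left _ _).trans (Matrix.rank_mul_le_right _ _)
  obtain ⟨b, hb1, hb⟩ := exists_orthonormal_cols N
  have h1 : y ⬝ᵥ ((M ⊙ A) *ᵥ x)
      = ∑ k, ∑ j, (b k ᵥ* A) j * ∑ l, b k l * N l j := by
    have e1 : y ⬝ᵥ ((M ⊙ A) *ᵥ x) = ∑ i, ∑ j, A i j * N i j := by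
      simp only [dotProduct, mulVec, Matrix.hadamard_apply, Finset.mul_sum, hN]
      refine Finset.sum_congr rfl fun i _ => Finset.sum_congr rfl fun j _ => by ring
    have e2 : ∀ i j, A i j * N i j = ∑ k, (b k i * A i j) * ∑ l, b k l * N l j := by
      intro i j
      nth_rewrite 1 [hb j i]
      rw [Finset.mul_sum]
      exact Finset.sum_congr rfl fun k _ => by ring
    rw [e1]
    simp only [e2]
    calc ∑ i, ∑ j, ∑ k, (b k i * A i j) * ∑ l, b k l * N l j
        = ∑ i, ∑ k, ∑ j, (b k i * A i j) * ∑ l, b k l * N l j :=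
          Finset.sum_congr rfl fun i _ => Finset.sum_comm
      _ = ∑ k, ∑ i, ∑ j, (b k i * A i j) * ∑ l, b k l * N l j := Finset.sum_comm
      _ = ∑ k, ∑ j, ∑ i, (b k i * A i j) * ∑ l, b k l * N l j :=
          Finset.sum_congr rfl fun k _ => Finset.sum_comm
      _ = ∑ k, ∑ j, (b k ᵥ* A) j * ∑ l, b k l * N l j := by
          refine Finset.sum_congr rfl fun k _ => Finset.sum_congr rfl fun j _ => ?_
          rw [← Finset.sum_mul]
          rfl
  have h2 : ∑ k, ∑ j, (b k ᵥ* A) j ^ 2 ≤ (M.rank : ℝ) := by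
    calc ∑ k, ∑ j, (b k ᵥ* A) j ^ 2 = ∑ k, (b k ᵥ* A) ⬝ᵥ (b k ᵥ* A) := by
          refine Finset.sum_congr rfl fun k _ => ?_
          simp only [dotProduct]
          exact Finset.sum_congr rfl fun j _ => by ring
      _ ≤ ∑ k, b k ⬝ᵥ b k := Finset.sum_le_sum fun k _ => vecMul_dot_le hA (b k)
      _ = (N.rank : ℝ) := by simp [hb1]
      _ ≤ (M.rank : ℝ) := by exact_mod_cast hrank
  have h3 : (∑ k, ∑ j, (b k ᵥ* A) j * ∑ l, b k l * N l j) ^ 2
      ≤ (∑ k, ∑ j, (b k ᵥ* A) j ^ 2) * ∑ k, ∑ j, (∑ l, b k l * N l j) ^ 2 := by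
    have := Finset.sum_mul_sq_le_sq_mul_sq (Finset.univ ×ˢ Finset.univ)
      (fun q : Fin N.rank × Fin n => (b q.1 ᵥ* A) q.2)
      (fun q => ∑ l, b q.1 l * N l q.2)
    simpa only [Finset.sum_product] using this
  have h4 : ∑ k, ∑ j, (∑ l, b k l * N l j) ^ 2 = (x ⬝ᵥ x) * (y ⬝ᵥ y) := by
    rw [Finset.sum_comm]
    simp only [sum_sq_coords hb]
    have : ∀ i j, N i j ^ 2 = (x j * x j) * (y i * y i) := by
      intro i j
      have := sign_sq hM i j
      rw [hN]
      calc (y i * M i j * x j) ^ 2 = (M i j * M i j) * ((x j * x j) * (y i * y i)) := by ring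
        _ = _ := by rw [this, one_mul]
    simp only [this, dotProduct, Finset.sum_mul_sum]
  rw [h1]
  calc (∑ k, ∑ j, (b k ᵥ* A) j * ∑ l, b k l * N l j) ^ 2
      ≤ (∑ k, ∑ j, (b k ᵥ* A) j ^ 2) * ∑ k, ∑ j, (∑ l, b k l * N l j) ^ 2 := h3
    _ ≤ (M.rank : ℝ) * ∑ k, ∑ j, (∑ l, b k l * N l j) ^ 2 := by
        refine mul_le_mul_of_nonneg_right h2 ?_
        exact Finset.sum_nonneg fun k _ => Finset.sum_nonneg fun j _ => sq_nonneg _
    _ = (M.rank : ℝ) * (x ⬝ᵥ x) * (y ⬝ᵥ y) := by rw [h4]; ring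

lemma schurNorm_nonneg {n : ℕ} {M : Matrix (Fin n) (Fin n) ℝ} (hM : IsSign M) :
    0 ≤ schurNorm M := by
  have h0 : opNorm (0 : Matrix (Fin n) (Fin n) ℝ) ≤ 1 := by unfold opNorm; simp
  exact (opNorm_nonneg _).trans (opNorm_le_schurNorm hM h0)

/-- A sign matrix has `‖M‖_S^2 ≤ rank M`. -/
lemma schurNorm_sq_le_rank {n : ℕ} {M : Matrix (Fin n) (Fin n) ℝ} (hM : IsSign M) :
    schurNorm M ^ 2 ≤ (M.rank : ℝ) := by
  have h0 : (0 : ℝ) ≤ M.rank := Nat.cast_nonneg _
  have h1 : schurNorm M ≤ Real.sqrt M.rank := by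
    refine csSup_le (schur_set_nonempty M) ?_
    rintro t ⟨A, hA, rfl⟩
    refine opNorm_le_of_bilin _ (Real.sqrt_nonneg _) fun x y => ?_
    rw [Real.sq_sqrt h0]
    exact bilin_le_rank hM hA x y
  have h2 := pow_le_pow_left₀ (schurNorm_nonneg hM) h1 2
  rwa [Real.sq_sqrt h0] at h2

/-- `r_n^2 ≥ r_m^2` for `1 ≤ m ≤ n`, with strict inequality for `m < n`. -/
lemma rMax_sq_lt {m n : ℕ} (hm : 1 ≤ m) (h : m < n) : rMax m ^ 2 < rMax n ^ 2 := by
  induction n, h using Nat.le_induction with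
  | base =>
    have h1 := rMax_step m hm
    have h2 : (0 : ℝ) < 1 / m := by
      have : (0 : ℝ) < m := by exact_mod_cast hm
      positivity
    change rMax m ^ 2 < rMax (m + 1) ^ 2
    linarith
  | succ k hk ih =>
    have hk' : 0 < k := by omega
    have h1 := rMax_step k hk'
    have h2 : (0 : ℝ) < 1 / k := by
      have : (0 : ℝ) < k := by exact_mod_cast hk'
      positivity
    linarith

/-- If a Hadamard matrix of order `m ≤ n` exists, then every maximizer of order `n` has rank at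
least `m`. -/
lemma rank_ge_of_hadamard {m n : ℕ} (hm : 1 ≤ m) (h : m ≤ n)
    (hH : ∃ H : Matrix (Fin m) (Fin m) ℝ, HadamardMat H)
    {M : Matrix (Fin n) (Fin n) ℝ} (hM : IsSign M) (hr : schurNorm M = rMax n) :
    m ≤ M.rank := by
  obtain ⟨H, hH⟩ := hH
  have h1 := rMax_of_hadamard hm hH
  have h2 : rMax m ^ 2 ≤ rMax n ^ 2 := by
    rcases h.eq_or_lt with h | h
    · rw [h]
    · exact (rMax_sq_lt hm h).le
  have h3 := schurNorm_sq_le_rank hM
  rw [hr] at h3
  exact_mod_cast (h1.trans h2).trans h3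

/-- If a Hadamard matrix of order `m < n` exists, then every maximizer of order `n` has rank at
least `m + 1`. -/
lemma rank_gt_of_hadamard {m n : ℕ} (hm : 1 ≤ m) (h : m < n)
    (hH : ∃ H : Matrix (Fin m) (Fin m) ℝ, HadamardMat H)
    {M : Matrix (Fin n) (Fin n) ℝ} (hM : IsSign M) (hr : schurNorm M = rMax n) :
    m + 1 ≤ M.rank := by
  obtain ⟨H, hH⟩ := hH
  have h1 := rMax_of_hadamard hm hH
  have h2 := rMax_sq_lt hm h
  have h3 := schurNorm_sq_le_rank hM
  rw [hr] at h3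
  have h4 : (m : ℝ) < M.rank := lt_of_le_of_lt h1 (lt_of_lt_of_le h2 h3)
  exact_mod_cast h4

end Pool.Agent.H.MP_abf7f7_an
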